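import Mathlib
import Pool.Agent.N909.CX.Def

set_option autoImplicit false

/-! # The fair random Collatz map: values along words in the tube -/

namespace Pool.Agent.N388.CX.X0

open Pool.Agent.N909.CM Pool.Agent.N909.CL Pool.Agent.N909.CX

theorem val_append (v : List Bool) (d : Bool) : ∀ n : ℕ, val n (v ++ [d]) = stp d (val n v) := by
  induction v with
  | nil => intro n; rfl
  | cons e w ih => intro n; exact ih (stp e n)

theorem sl_pos (v : List Bool) : 0 < sl v := by
  unfold sl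
  positivity

theorem sl_append (v : List Bool) (d : Bool) :
    sl (v ++ [d]) = (if d then (3 : ℝ) / 2 else 1 / 2) * sl v := by
  unfold sl
  rw [List.count_append, List.length_append]
  cases d
  · simp [pow_succ]
    ring
  · simp [pow_succ]
    ring

theorem stp_bound (d : Bool) (n : ℕ) :
    |((stp d n : ℕ) : ℝ) - (if d then (3 : ℝ) / 2 else 1 / 2) * n| ≤ 1 / 2 := by
  cases d
  · have h : stp false n = n / 2 := rfl
    rw [h]
    have h1 : 2 * (n / 2) ≤ n := by omega
    have h2 : n ≤ 2 * (n / 2) + 1 := by omega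
    have h1' : (2 : ℝ) * ((n / 2 : ℕ) : ℝ) ≤ n := by exact_mod_cast h1
    have h2' : (n : ℝ) ≤ 2 * ((n / 2 : ℕ) : ℝ) + 1 := by exact_mod_cast h2
    rw [abs_le]
    simp only [Bool.false_eq_true, if_false]
    constructor <;> linarith
  · have h : stp true n = (3 * n + 1) / 2 := rfl
    rw [h]
    have h1 : 2 * ((3 * n + 1) / 2) ≤ 3 * n + 1 := by omega
    have h2 : 3 * n + 1 ≤ 2 * ((3 * n + 1) / 2) + 1 := by omega
    have h1' : (2 : ℝ) * (((3 * n + 1) / 2 : ℕ) : ℝ) ≤ 3 * n + 1 := by exact_mod_cast h1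
    have h2' : (3 : ℝ) * n + 1 ≤ 2 * (((3 * n + 1) / 2 : ℕ) : ℝ) + 1 := by exact_mod_cast h2
    rw [abs_le]
    simp only [if_true]
    constructor <;> linarith

theorem three_rpow : (20 : ℝ) / 9 ≤ (3 : ℝ) ^ ((749 : ℝ) / 1000) := by
  have h : ((20 : ℝ) / 9) ^ 11 ≤ 3 ^ 8 := by norm_num
  have h1 : ((3 : ℝ) ^ ((8 : ℝ) / 11)) ^ 11 = 3 ^ 8 := by
    rw [← Real.rpow_natCast, ← Real.rpow_mul (by norm_num), ← Real.rpow_natCast]
    norm_num
  rw [← h1] at h
  refine le_trans (le_of_pow_le_pow_left₀ (by norm_num) (by positivity) h) ?_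
  exact Real.rpow_le_rpow_of_exponent_le (by norm_num) (by norm_num)

theorem tube_sl {M : ℕ} {v : List Bool} (h : Tube M v) :
    1 / sl v ≤ 3 ^ M * (9 / 10 : ℝ) ^ v.length := by
  have h0 := h v.length le_rfl
  rw [List.take_length] at h0
  set u := v.count true with hu
  set l := v.length with hl
  have h1 : (749 : ℝ) / 1000 * l ≤ u + M := by
    have := (abs_le.1 h0).1
    linarith
  have h2 : (3 : ℝ) ^ ((749 : ℝ) / 1000 * l) ≤ (3 : ℝ) ^ ((u : ℝ) + M) :=
    Real.rpow_le_rpow_of_exponent_le (by norm_num) h1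
  rw [Real.rpow_mul (by norm_num), Real.rpow_natCast, Real.rpow_add (by norm_num),
    Real.rpow_natCast, Real.rpow_natCast] at h2
  have h3 : ((20 : ℝ) / 9) ^ l ≤ 3 ^ u * 3 ^ M :=
    le_trans (pow_le_pow_left₀ (by norm_num) three_rpow l) h2
  have h4 : (0 : ℝ) < 3 ^ u := by positivity
  unfold sl
  rw [← hu, ← hl, one_div_div, div_le_iff₀ h4]
  have h5 : (2 : ℝ) ^ l = (9 / 10 : ℝ) ^ l * (20 / 9) ^ l := by
    rw [← mul_pow]
    norm_num
  rw [h5]
  have h6 : (0 : ℝ) < (9 / 10 : ℝ) ^ l := by positivity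
  calc (9 / 10 : ℝ) ^ l * (20 / 9) ^ l ≤ (9 / 10 : ℝ) ^ l * (3 ^ u * 3 ^ M) :=
        mul_le_mul_of_nonneg_left h3 h6.le
    _ = 3 ^ M * (9 / 10) ^ l * 3 ^ u := by ring

theorem tube_init {M : ℕ} {v : List Bool} {d : Bool} (h : Tube M (v ++ [d])) : Tube M v := by
  intro j hj
  have h1 := h j (by rw [List.length_append]; omega)
  rwa [List.take_append_of_le_length hj] at h1

theorem inv (M n : ℕ) (v : List Bool) : Tube M v →
    |(val n v : ℝ) / sl v - n| ≤
      1 / 2 * ∑ j ∈ Finset.range v.length, 3 ^ M * (9 / 10 : ℝ) ^ (j + 1) := by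
  induction v using List.reverseRecOn with
  | nil =>
    intro _
    simp [val, sl]
  | append_singleton v d ih =>
    intro h
    have h1 := ih (tube_init h)
    have h2 := tube_sl h
    have hp := sl_pos v
    have hp' := sl_pos (v ++ [d])
    rw [List.length_append, List.length_singleton, Finset.sum_range_succ]
    rw [List.length_append, List.length_singleton] at h2
    have h3 := stp_bound d (val n v)
    have h4 : (val n (v ++ [d]) : ℝ) / sl (v ++ [d]) - n =
        ((stp d (val n v) : ℕ) - (if d then (3 : ℝ) / 2 else 1 / 2) * (val n v : ℝ)) / sl (v ++ [d]) +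
          ((val n v : ℝ) / sl v - n) := by
      rw [val_append, sub_div]
      have hs := sl_append v d
      have hne : (if d then (3 : ℝ) / 2 else 1 / 2) ≠ 0 := by
        cases d <;> norm_num
      have : (if d then (3 : ℝ) / 2 else 1 / 2) * (val n v : ℝ) / sl (v ++ [d]) =
          (val n v : ℝ) / sl v := by
        rw [hs, mul_div_mul_left _ _ hne]
      rw [this]
      ring
    rw [h4]
    refine le_trans (abs_add_le _ _) ?_
    have h5 : |((stp d (val n v) : ℕ) - (if d then (3 : ℝ) / 2 else 1 / 2) * (val n v : ℝ)) /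
        sl (v ++ [d])| ≤ 1 / 2 * (3 ^ M * (9 / 10 : ℝ) ^ (v.length + 1)) := by
      rw [abs_div, abs_of_pos hp', div_eq_mul_one_div]
      exact mul_le_mul h3 h2 (by positivity) (by norm_num)
    linarith

theorem geom (M l : ℕ) :
    ∑ j ∈ Finset.range l, 3 ^ M * (9 / 10 : ℝ) ^ (j + 1) ≤ 9 * 3 ^ M := by
  have h : ∑ j ∈ Finset.range l, 3 ^ M * (9 / 10 : ℝ) ^ (j + 1) =
      9 * 3 ^ M * (1 - (9 / 10 : ℝ) ^ l) := by
    induction l with
    | zero => simp
    | succ k ih =>
      rw [Finset.sum_range_succ, ih]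
      ring
  rw [h]
  have h1 : (0 : ℝ) ≤ (9 / 10 : ℝ) ^ l := by positivity
  have h2 : (0 : ℝ) < 9 * 3 ^ M := by positivity
  nlinarith

theorem t : Pool.Agent.N909.CX.Stm0 := by
  intro M
  refine ⟨9 * 3 ^ M, fun n hn v hv => ?_⟩
  have h1 := inv M n v hv
  have h2 := geom M v.length
  have hn' : (9 : ℝ) * 3 ^ M ≤ n := by exact_mod_cast hn
  have h3 : |(val n v : ℝ) / sl v - n| ≤ n / 2 := by linarith
  obtain ⟨h4, h5⟩ := abs_le.1 h3
  have hp := sl_pos v
  have h6 : (n : ℝ) / 2 ≤ (val n v : ℝ) / sl v := by linarith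
  have h7 : (val n v : ℝ) / sl v ≤ 2 * n := by
    have : (0 : ℝ) ≤ n := Nat.cast_nonneg n
    linarith
  rw [le_div_iff₀ hp] at h6
  rw [div_le_iff₀ hp] at h7
  constructor
  · linarith
  · linarith

end Pool.Agent.N388.CX.X0
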